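import Pool.Agent.Helper417.Mer.OpenBad

/-!
# MP_55bc5f_an: the meromorphic extension property is not open

All definitions are in `Pool/Agent/Helper417/Mer/Defs.lean`.

The family is the quotient of the open subset `{(t, ζ, z, w) ∈ ℂ⁴ : |t| < 1, ζ ≠ t conj(z)}` of
`ℂ⁴` by the group `ℤ ⋉ ℤ[i]²` of the holomorphic transformations
`(t, ζ, z, w) ↦ (t, λᵏ ζ + t conj(a), λᵏ z + a, λ⁻ᵏ w + b)`, where `λ = φ²`, `φ` the golden ratio,
`k ∈ ℤ` and `(a, b)` in a lattice of `ℂ²`; the projection is `t`. The fibre over `0` is a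
solvmanifold of Nakamura, with universal cover `ℂ³`.
-/

namespace Pool.Agent.Results.MP_55bc5f_an.Openness

open Set Metric
open Pool.Agent.Helper417.Mer

/-- There is a complex deformation `π : M → Δ` (of compact complex threefolds) such that the
central fibre has the meromorphic extension property, and no other fibre does. -/
theorem result :
    ∃ (M : Type) (_ : TopologicalSpace M) (_ : ChartedSpace (ℂ × ℂ × ℂ × ℂ) M) (π : M → ℂ),
      IsComplexDeformation (ℂ × ℂ × ℂ × ℂ) π ∧
      HasMeromorphicExtension (ℂ × ℂ × ℂ × ℂ) (π ⁻¹' {0}) ∧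
      ∀ t ∈ ball (0 : ℂ) 1, t ≠ 0 → ¬ HasMeromorphicExtension (ℂ × ℂ × ℂ × ℂ) (π ⁻¹' {t}) := by
  have hT2 := Opn.fam.t2
  exact ⟨Opn.fam.Tot, inferInstance, Opn.fam.quot.cs, Opn.fam.proj,
    Opn.fam.isComplexDeformation, hasMeromorphicExtension Opn.extClosed,
    fun t ht ht0 => Opn.not_hasMeromorphicExtension (by simpa using ht) ht0⟩

end Pool.Agent.Results.MP_55bc5f_an.Openness
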